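import Pool.Agent.Q224.EA.Alg

/-!
# MP_d91e39: LINKAGE parameterized by the number of pairs and ear anonymity

LINKAGE, parameterized by the number of pairs, is W[1]-hard already on acyclic digraphs of ear
anonymity at most `19`.
-/

set_option autoImplicit false

namespace Pool.Agent.Results.MP_d91e39_lc.LinkageHard

open Pool.Agent.NPC Pool.Agent.H633R2 Turing

/-- The arcs of a walk `(v_0, …, v_l)`, in this order. -/
def arcs {V : Type} (w : List V) : List (V × V) := w.zip w.tail

/-- A path: a walk with no repeated vertex. -/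
def IsPath {V : Type} (A : V → V → Prop) (w : List V) : Prop := w ≠ [] ∧ w.IsChain A ∧ w.Nodup

/-- A cycle: a walk `(v_0, …, v_l)` with `v_0 = v_l`, `l ≥ 2` and `v_0, …, v_{l-1}` distinct. -/
def IsCycle {V : Type} (A : V → V → Prop) (w : List V) : Prop :=
  ∃ (v : V) (l : List V), l ≠ [] ∧ w = v :: (l ++ [v]) ∧ w.IsChain A ∧ (v :: l).Nodup

/-- An ear is a path or a cycle. -/
def IsEar {V : Type} (A : V → V → Prop) (w : List V) : Prop := IsPath A w ∨ IsCycle A w

/-- The subgraph relation between walks. -/
def Sub {V : Type} (w w' : List V) : Prop := w ⊆ w' ∧ arcs w ⊆ arcs w'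

/-- Maximal ears. -/
def IsMaximalEar {V : Type} (A : V → V → Prop) (w : List V) : Prop :=
  IsEar A w ∧ ∀ w', IsEar A w' → Sub w w' → Sub w' w

/-- The sequence `a` of arcs is identifying for the ear `w`: it is nonempty, its arcs lie on `w`
in this order (after a choice of the first vertex, if `w` is a cycle), and every ear that contains
its arcs in this order is a subgraph of `w`. -/
def Identifies {V : Type} (A : V → V → Prop) (w : List V) (a : List (V × V)) : Prop :=
  a ≠ [] ∧ (∃ w', IsEar A w' ∧ Sub w w' ∧ Sub w' w ∧ a.Sublist (arcs w')) ∧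
    ∀ w', IsEar A w' → a.Sublist (arcs w') → Sub w' w

/-- The least length of an identifying sequence of `w` (`0` if `w` has no arcs). -/
noncomputable def earAnonymityOf {V : Type} (A : V → V → Prop) (w : List V) : ℕ :=
  sInf {m | ∃ a, Identifies A w a ∧ a.length = m}

/-- The ear anonymity of a digraph. -/
noncomputable def earAnonymity {V : Type} (A : V → V → Prop) : ℕ :=
  sSup {m | ∃ w, IsMaximalEar A w ∧ m = earAnonymityOf A w}

/-- Acyclic digraphs. -/
def Acyclic {V : Type} (A : V → V → Prop) : Prop := ∀ w, ¬ IsCycle A w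

/-- An instance of LINKAGE: a digraph, given by a 0/1 matrix, and the list of the pairs
`(s_1, t_1), …, (s_k, t_k)`; the vertices are the numbers smaller than the number of rows. -/
abbrev Inst := List (List Bool) × List (ℕ × ℕ)

/-- The arcs of the digraph of an instance: `(u, v)` is an arc iff `u ≠ v` and the entry `(u, v)`
of the matrix is `1`. -/
def digraph (x : Inst) (u v : Fin x.1.length) : Prop := u ≠ v ∧ entry x.1 u v = true

/-- The number `k` of pairs. -/
def pairs (x : Inst) : ℕ := x.2.length

/-- LINKAGE: some set of pairwise vertex-disjoint paths contains, for each of the given pairs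
`(s, t)`, a path from `s` to `t`. -/
def HasLinkage (x : Inst) : Prop :=
  ∃ L : Set (List (Fin x.1.length)), (∀ P ∈ L, IsPath (digraph x) P) ∧
    (∀ P ∈ L, ∀ Q ∈ L, P ≠ Q → P.Disjoint Q) ∧
    ∀ st ∈ x.2, ∃ P ∈ L, P.head?.map Fin.val = some st.1 ∧ P.getLast?.map Fin.val = some st.2

/-- The Turing machine `M` solves LINKAGE on all acyclic digraphs `D` within
`f(k) * |x| ^ g(ea(D))` steps, where `|x|` is the length of the instance. -/
def SolvesAcyclic (M : TM2ComputableAux Bool Bool) (f g : ℕ → ℕ) : Prop :=
  ∀ x : Inst, Acyclic (digraph x) → ∃ b : Bool, (b = true ↔ HasLinkage x) ∧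
    TmRuns M (bits x) (bits b) (f (pairs x) * (bits x).length ^ g (earAnonymity (digraph x)))

/-- (1) Every parameterized problem in W[1] has an fpt-reduction to LINKAGE parameterized by the
number of pairs which produces only acyclic digraphs of ear anonymity at most `19`.
(2) If some Turing machine solves LINKAGE on acyclic digraphs in time `f(k) * |x| ^ g(ea(D))` for
some functions `f` and `g`, then every problem in W[1] is solvable in time `h(κ) * p(|a|)` for a
function `h`, computable if `f` is, and a polynomial `p`. -/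
theorem result :
    (∀ (α : Type) [TEnc α] (κ : α → ℕ) (P : α → Prop), InW1 κ P →
      ∃ (F : α → Inst) (g : ℕ → ℕ), FptTime κ F ∧ Computable g ∧
        ∀ a, (P a ↔ HasLinkage (F a)) ∧ pairs (F a) ≤ g (κ a) ∧ Acyclic (digraph (F a)) ∧
          earAnonymity (digraph (F a)) ≤ 19) ∧
    ∀ (M : TM2ComputableAux Bool Bool) (f g : ℕ → ℕ), SolvesAcyclic M f g →
      ∀ (α : Type) [TEnc α] (κ : α → ℕ) (P : α → Prop), InW1 κ P →
        ∃ (M' : TM2ComputableAux Bool Bool) (h : ℕ → ℕ) (p : Polynomial ℕ),
          (Computable f → Computable h) ∧ ∀ a, ∃ b : Bool, (b = true ↔ P a) ∧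
            TmRuns M' (bits a) (bits b) (h (κ a) * p.eval (bits a).length) := by
  constructor
  · intro α _ κ P hP
    obtain ⟨F, g, hF, hg, h⟩ := Pool.Agent.NPC.Q224EA.reduction hP
    exact ⟨F, g, hF, hg, fun a => ⟨(h a).1, (h a).2.1, (h a).2.2.1, (h a).2.2.2.2⟩⟩
  · intro M f g hM α _ κ P hP
    exact Pool.Agent.NPC.Q224EA.collapse hP M f g hM

end Pool.Agent.Results.MP_d91e39_lc.LinkageHard
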